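import Pool.Agent.LibGR95.RY

/-!
# Gross's p-adic regulator does not vanish when `r = m_p(χ)`

`p` is a prime, `K` a CM field, `YM p K` is the minus part `Y⁻` of `ℚ_p ⊗ Y_{K,p}` (functions on the places of `K` above
`p`; a place is a `Gal`-orbit of embeddings `σ : K → PadicAlgCl p`), on which every automorphism group `Aut(K/R)` acts.
Gross's regulator map `Λ : Y⁻ → Y⁻` maps the vector `(v_p (N_{K_w/ℚ_p} u))_w` to `(log_p (N_{K_w/ℚ_p} u))_w`, for all minus
`p`-units `u`.  We prove that `Λ` exists and is unique, and that `Λ` is bijective on every simple `ℚ_p[G]`-submodule `W` of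
`Y⁻` which occurs with multiplicity one in `Y⁻`.  If `χ` is a totally odd irreducible character of `G = Gal(K/R)` and `W` the
simple `ℚ_p[G]`-module of `χ` (it contains `χ` exactly `m_p(χ)` times, `m_p(χ)` = Schur index over `ℚ_p`), then the multiplicity of `W`
in `Y⁻` is `r_{S,χ} / m_p(χ)`, so this is the case `r_{S,χ} = m_p(χ)`, and the conclusion is `R_p(χ) ≠ 0`.

The proof uses Brumer's p-adic analogue of Baker's theorem (proved in `Pool.Agent.LibBru95`).
-/

namespace Pool.Agent.Results.MP_b577ed_nt.GrossRegulator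

open NumberField GR95 Bru95

universe u v

theorem result (p : ℕ) [Fact p.Prime] :
    (∃ L : ℚ_[p] → ℚ_[p], IsPadicLog p L) ∧
    ∀ L : ℚ_[p] → ℚ_[p], IsPadicLog p L →
    ∀ (K : Type u) [Field K] [NumberField K] [IsCMField K],
      (∃! Λ : EndY p K, IsGrossMap L Λ) ∧
      ∀ Λ : EndY p K, IsGrossMap L Λ →
        -- the main theorem: constituents of multiplicity one
        (∀ (R : Type v) [Field R] [Algebra R K] (W : SubY p K),
          Simple R W → MultOne R W → W.map Λ = W) ∧
        -- all characters at once, if `Y⁻` is multiplicity free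
        (∀ (R : Type v) [Field R] [Algebra R K], MultiplicityFree p K R → Function.Bijective Λ) ∧
        -- the explicit family `Gal(K/ℚ) = C_p ⋊ C_(2 m t)`, `p` totally split
        (IsGalois ℚ K → TotallySplit p K → ∀ (m t g : ℕ) (a b : K ≃ₐ[ℚ] K) (ω : ℤ_[p]),
          Metacyclic p K m t g a b → GoodRoot p m t ω →
            (chiPart p K a b m ω).map Λ = chiPart p K a b m ω ∧
              Module.finrank ℚ_[p] (chiPart p K a b m ω) = m * (p - 1)) := by
  refine ⟨exists_log p, fun L hL K _ _ _ => ⟨gross_unique p K hL, fun Λ hΛ => ⟨?_, ?_, ?_⟩⟩⟩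
  · intro R _ _ W hW hW'
    exact gross_main p K hL R W hW hW' Λ hΛ
  · intro R _ _ h
    exact gross_free p K hL R h Λ hΛ
  · intro _ hs m t g a b ω hab hω
    exact gross_family p K hL hs hab hω Λ hΛ

end Pool.Agent.Results.MP_b577ed_nt.GrossRegulator
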